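import Mathlib

namespace Pool.Agent.H.MP_5876d3_an

open MeasureTheory Set

variable {E : Type} [NormedAddCommGroup E] [NormedSpace ℂ E] [CompleteSpace E]

noncomputable def VV (A : ℝ → E →L[ℂ] E) (x0 : ℝ) (v0 : E) : ℕ → ℝ → E
  | 0 => fun _ => v0
  | n + 1 => fun x => ∫ t in x0..x, A t (VV A x0 v0 n t)

omit [CompleteSpace E] in
theorem VV_cont {A : ℝ → E →L[ℂ] E} (hA : Continuous A) (x0 : ℝ) (v0 : E) (n : ℕ) :
    Continuous (VV A x0 v0 n) := by
  induction n with
  | zero => exact continuous_const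
  | succ n ih =>
    exact intervalIntegral.continuous_primitive
      (fun a b => (hA.clm_apply ih).intervalIntegrable a b) x0

theorem VV_deriv {A : ℝ → E →L[ℂ] E} (hA : Continuous A) (x0 : ℝ) (v0 : E) (n : ℕ) (x : ℝ) :
    HasDerivAt (VV A x0 v0 (n + 1)) (A x (VV A x0 v0 n x)) x :=
  ((hA.clm_apply (VV_cont hA x0 v0 n)).integral_hasStrictDerivAt x0 x).hasDerivAt

theorem VV_bound {A : ℝ → E →L[ℂ] E} (hA : Continuous A) {C : ℝ} (hC : ∀ x, ‖A x‖ ≤ C) (x0 : ℝ)
    (v0 : E) (n : ℕ) (x : ℝ) :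
    ‖VV A x0 v0 n x‖ ≤ ‖v0‖ * ((C * |x - x0|) ^ n / n.factorial) := by
  have C0 : 0 ≤ C := (norm_nonneg _).trans (hC 0)
  induction n generalizing x with
  | zero => simp [VV]
  | succ n ih =>
    have h1 : ‖VV A x0 v0 (n + 1) x‖ ≤
        |∫ t in x0..x, C * (‖v0‖ * (C ^ n / n.factorial)) * |t - x0| ^ n| := by
      refine intervalIntegral.norm_integral_le_abs_of_norm_le
        (Filter.Eventually.of_forall fun t => ?_)
        (Continuous.intervalIntegrable (by fun_prop) _ _)
      refine ((A t).le_opNorm _).trans ((mul_le_mul (hC t) (ih t) (norm_nonneg _) C0).trans_eq ?_)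
      rw [mul_pow]; ring
    rw [intervalIntegral.integral_const_mul, abs_mul, abs_of_nonneg (by positivity)] at h1
    have h2 : |∫ t in x0..x, |t - x0| ^ n| = |x - x0| ^ (n + 1) / (n + 1) := by
      rw [intervalIntegral.abs_integral_eq_abs_integral_uIoc, integral_pow_abs_sub_uIoc,
        abs_of_nonneg (by positivity)]
    rw [h2] at h1
    refine h1.trans_eq ?_
    rw [Nat.factorial_succ, mul_pow]; push_cast; field_simp; ring

theorem exists_sol {A : ℝ → E →L[ℂ] E} (hA : Continuous A) {C : ℝ} (hC : ∀ x, ‖A x‖ ≤ C)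
    (x0 : ℝ) (v0 : E) : ∃ v : ℂ → ℝ → E, (∀ m x, HasDerivAt (v m) (m • A x (v m x)) x) ∧
      (∀ m, v m x0 = v0) ∧ ∀ x, ∃ W : ℂ → E, Differentiable ℂ W ∧
        ∀ m, v m x = v0 + m • (∫ t in x0..x, A t v0) + m ^ 2 • W m := by
  have C0 : 0 ≤ C := (norm_nonneg _).trans (hC 0)
  have bd : ∀ (m : ℂ) (r R : ℝ) (n : ℕ) (x : ℝ), ‖m‖ ≤ r → |x - x0| ≤ R →
      ‖m ^ n • VV A x0 v0 n x‖ ≤ ‖v0‖ * ((r * (C * R)) ^ n / n.factorial) := by
    intro m r R n x hm hx
    have r0 : 0 ≤ r := (norm_nonneg _).trans hm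
    rw [norm_smul, norm_pow]
    calc _ ≤ r ^ n * (‖v0‖ * ((C * R) ^ n / n.factorial)) := by
          refine mul_le_mul (by gcongr) ((VV_bound hA hC x0 v0 n x).trans (by gcongr))
            (norm_nonneg _) (by positivity)
      _ = _ := by rw [mul_pow r]; ring
  have sm : ∀ (m : ℂ) (x : ℝ), Summable fun n => m ^ n • VV A x0 v0 n x := fun m x =>
    Summable.of_norm_bounded ((Real.summable_pow_div_factorial _).mul_left _)
      fun n => bd m _ _ n x le_rfl le_rfl
  refine ⟨fun m x => ∑' n, m ^ n • VV A x0 v0 n x, fun m x => ?_, fun m => ?_, fun x => ?_⟩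
  · have h := hasDerivAt_tsum_of_isPreconnected
      (u := fun n : ℕ => ‖m‖ * (C * (‖v0‖ * ((‖m‖ * (C * (|x - x0| + 1))) ^ n / n.factorial))))
      (g := fun n y => m ^ (n + 1) • VV A x0 v0 (n + 1) y)
      (g' := fun n y => m • A y (m ^ n • VV A x0 v0 n y)) (t := Metric.ball x0 (|x - x0| + 1))
      (y₀ := x) (y := x)
      ((((Real.summable_pow_div_factorial _).mul_left _).mul_left _).mul_left _)
      Metric.isOpen_ball (convex_ball _ _).isPreconnected
      (fun n y _ => ((VV_deriv hA x0 v0 n y).const_smul (m ^ (n + 1))).congr_deriv (by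
        rw [map_smul, smul_smul, pow_succ']))
      (fun n y hy => by
        rw [norm_smul]
        refine mul_le_mul_of_nonneg_left (((A y).le_opNorm _).trans (mul_le_mul (hC y)
          (bd m _ _ n y le_rfl ?_) (norm_nonneg _) C0)) (norm_nonneg _)
        exact (show |y - x0| < _ from hy).le)
      (show |x - x0| < _ by linarith) ((summable_nat_add_iff 1).mpr (sm m x))
      (show |x - x0| < _ by linarith)
    have e : (fun x => ∑' n, m ^ n • VV A x0 v0 n x)
        = fun x => v0 + ∑' n, m ^ (n + 1) • VV A x0 v0 (n + 1) x := by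
      funext y
      rw [(sm m y).tsum_eq_zero_add]; simp [VV]
    show HasDerivAt (fun x => ∑' n, m ^ n • VV A x0 v0 n x)
      (m • A x (∑' n, m ^ n • VV A x0 v0 n x)) x
    rw [e]
    refine (h.const_add v0).congr_deriv ?_
    rw [(A x).map_tsum (sm m x), Summable.tsum_const_smul]
    exact (A x).summable (sm m x)
  · show ∑' n, m ^ n • VV A x0 v0 n x0 = v0
    rw [(sm m x0).tsum_eq_zero_add]; simp [VV]
  · refine ⟨fun m => ∑' n, m ^ n • VV A x0 v0 (n + 2) x, fun w => ?_, fun m => ?_⟩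
    · have h := Complex.differentiableOn_tsum_of_summable_norm (U := Metric.ball 0 (‖w‖ + 1))
        (F := fun (n : ℕ) (m : ℂ) => m ^ n • VV A x0 v0 (n + 2) x)
        (u := fun n : ℕ => ‖v0‖ * (((‖w‖ + 1) * (C * |x - x0|)) ^ (n + 2) / (n + 2).factorial))
        ((summable_nat_add_iff (f := fun n : ℕ =>
          ‖v0‖ * (((‖w‖ + 1) * (C * |x - x0|)) ^ n / n.factorial)) 2).mpr
          ((Real.summable_pow_div_factorial _).mul_left _))
        (fun n => by fun_prop) Metric.isOpen_ball fun n z hz => by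
          have h1 : ‖z‖ ≤ ‖w‖ + 1 := (mem_ball_zero_iff.mp hz).le
          have h2 := bd ((‖w‖ + 1 : ℝ) : ℂ) (‖w‖ + 1) _ (n + 2) x
            (by rw [Complex.norm_real, Real.norm_of_nonneg (by positivity)]) le_rfl
          refine le_trans ?_ h2
          rw [norm_smul, norm_smul, norm_pow, norm_pow, Complex.norm_real,
            Real.norm_of_nonneg (by positivity)]
          refine mul_le_mul_of_nonneg_right ?_ (norm_nonneg _)
          exact (pow_le_pow_left₀ (norm_nonneg _) h1 n).trans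
            (pow_le_pow_right₀ (by linarith [norm_nonneg w]) (by omega))
      exact h.differentiableAt (Metric.isOpen_ball.mem_nhds (by simp))
    · show ∑' n, m ^ n • VV A x0 v0 n x = _
      rw [← (sm m x).sum_add_tsum_nat_add 2, ← tsum_const_smul'']
      simp only [Finset.sum_range_succ, Finset.sum_range_zero, zero_add, pow_zero, one_smul,
        pow_one, VV, smul_smul, ← pow_add, add_comm 2]

end Pool.Agent.H.MP_5876d3_an
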