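import Pool.Agent.H.MP_5876d3_an.A

namespace Pool.Agent.H.MP_5876d3_an

open MeasureTheory Set Complex Real

noncomputable def zz (x : ℝ) : ℂ := circleMap 0 (6 / 5) x
noncomputable def TT (w : ℂ) : ℂ := (w + 2) * (9 * w ^ 2 + 8 * w + 16)
noncomputable def hh (x : ℝ) : ℂ := 9 * zz x ^ 3 + 17 * zz x ^ 2 + 6 * zz x - 32 * (zz x)⁻¹
noncomputable def h1 (x : ℝ) : ℂ := I * (27 * zz x ^ 3 + 34 * zz x ^ 2 + 6 * zz x + 32 * (zz x)⁻¹)
noncomputable def h2 (x : ℝ) : ℂ := -(81 * zz x ^ 3 + 68 * zz x ^ 2 + 6 * zz x - 32 * (zz x)⁻¹)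
noncomputable def FF (x : ℝ) : ℂ :=
  32 * (zz x)⁻¹ + 6 * zz x + 17 / 2 * zz x ^ 2 + 3 * zz x ^ 3 + 99 / 2
noncomputable def uu (x : ℝ) : ℂ := -h1 x / (2 * hh x)
noncomputable def QQ (x : ℝ) : ℂ := -h2 x / (2 * hh x) + 3 * h1 x ^ 2 / (4 * hh x ^ 2)

theorem zz_norm (x : ℝ) : ‖zz x‖ = 6 / 5 := by
  rw [zz, norm_circleMap_zero]; norm_num

theorem zz_ne (x : ℝ) : zz x ≠ 0 := fun h => by
  have := zz_norm x; rw [h] at this; norm_num at this

theorem zz_ne1 (x : ℝ) : zz x - 1 ≠ 0 := fun h => by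
  have := zz_norm x; rw [sub_eq_zero.mp h] at this; norm_num at this

theorem TT_ne {w : ℂ} (hw : ‖w‖ ≤ 6 / 5) : TT w ≠ 0 := by
  have h0 : w.re ^ 2 + w.im ^ 2 ≤ 36 / 25 := by
    have := Complex.sq_norm w
    rw [Complex.normSq_apply] at this
    nlinarith [norm_nonneg w]
  refine mul_ne_zero (fun h => ?_) fun h => ?_
  · have a := congrArg re h
    simp at a
    nlinarith [sq_nonneg w.im]
  · have a := congrArg re h
    have b := congrArg im h
    simp [pow_two] at a b
    have c : w.im * (18 * w.re + 8) = 0 := by linarith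
    rcases mul_eq_zero.mp c with c | c
    · rw [c] at a; nlinarith [sq_nonneg (w.re + 1)]
    · have : w.re = -4 / 9 := by linarith
      rw [this] at a h0; nlinarith

theorem hh_eq (x : ℝ) : hh x = (zz x - 1) * TT (zz x) / zz x := by
  have := zz_ne x
  rw [hh, TT]; field_simp; ring

theorem hh_ne (x : ℝ) : hh x ≠ 0 := by
  rw [hh_eq]
  exact div_ne_zero (mul_ne_zero (zz_ne1 x) (TT_ne (zz_norm x).le)) (zz_ne x)

theorem dz (x : ℝ) : HasDerivAt zz (zz x * I) x := hasDerivAt_circleMap 0 (6 / 5) x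

theorem dzi (x : ℝ) : HasDerivAt (fun x => (zz x)⁻¹) (-(I * (zz x)⁻¹)) x :=
  ((dz x).inv (zz_ne x)).congr_deriv (by have := zz_ne x; field_simp)

theorem dpoly (a b c d e : ℂ) (x : ℝ) :
    HasDerivAt (fun x => a * zz x ^ 3 + b * zz x ^ 2 + c * zz x + d * (zz x)⁻¹ + e)
      (I * (3 * a * zz x ^ 3 + 2 * b * zz x ^ 2 + c * zz x - d * (zz x)⁻¹)) x :=
  (((((((dz x).pow 3).const_mul a).add (((dz x).pow 2).const_mul b)).add
    ((dz x).const_mul c)).add ((dzi x).const_mul d)).add_const e).congr_deriv (by simp; ring)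

theorem dh (x : ℝ) : HasDerivAt hh (h1 x) x := by
  have := dpoly 9 17 6 (-32) 0 x
  have e : hh = fun x => 9 * zz x ^ 3 + 17 * zz x ^ 2 + 6 * zz x + -32 * (zz x)⁻¹ + 0 :=
    funext fun x => by rw [hh]; ring
  rw [e]; exact this.congr_deriv (by rw [h1]; ring)

theorem dh1 (x : ℝ) : HasDerivAt h1 (h2 x) x := by
  have := (dpoly 27 34 6 32 0 x).const_mul I
  have e : h1 = fun x => I * (27 * zz x ^ 3 + 34 * zz x ^ 2 + 6 * zz x + 32 * (zz x)⁻¹ + 0) :=
    funext fun x => by rw [h1]; ring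
  rw [e]
  exact this.congr_deriv (by
    rw [h2]
    linear_combination (81 * zz x ^ 3 + 68 * zz x ^ 2 + 6 * zz x - 32 * (zz x)⁻¹) * I_sq)

theorem dF (x : ℝ) : HasDerivAt FF (I * hh x) x := by
  have := dpoly 3 (17 / 2) 6 32 (99 / 2) x
  have e : FF = fun x => 3 * zz x ^ 3 + 17 / 2 * zz x ^ 2 + 6 * zz x + 32 * (zz x)⁻¹ + 99 / 2 :=
    funext fun x => by rw [FF]; ring
  rw [e]; exact this.congr_deriv (by rw [hh]; ring)

theorem du (x : ℝ) : HasDerivAt uu (QQ x - uu x ^ 2) x := by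
  have := hh_ne x
  refine ((dh1 x).neg.div ((dh x).const_mul 2) (mul_ne_zero two_ne_zero this)).congr_deriv ?_
  simp only [QQ, uu, Pi.neg_apply]
  field_simp; ring

theorem zz_cont : Continuous zz := continuous_circleMap _ _
theorem zi_cont : Continuous fun x => (zz x)⁻¹ := zz_cont.inv₀ zz_ne
theorem hh_cont : Continuous hh := continuous_iff_continuousAt.mpr fun x => (dh x).continuousAt
theorem h1_cont : Continuous h1 := continuous_iff_continuousAt.mpr fun x => (dh1 x).continuousAt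
theorem FF_cont : Continuous FF := continuous_iff_continuousAt.mpr fun x => (dF x).continuousAt
theorem uu_cont : Continuous uu := continuous_iff_continuousAt.mpr fun x => (du x).continuousAt
theorem QQ_cont : Continuous QQ := by
  have := zz_cont; have := zi_cont; have := hh_cont; have := h1_cont
  have a : Continuous h2 := by unfold h2; fun_prop
  exact (a.neg.div (by fun_prop) fun x => mul_ne_zero two_ne_zero (hh_ne x)).add
    (Continuous.div (by fun_prop) (by fun_prop) fun x =>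
      mul_ne_zero (by norm_num) (pow_ne_zero 2 (hh_ne x)))

theorem zz_per (x : ℝ) : zz (x + 2 * π) = zz x := periodic_circleMap _ _ x
theorem hh_per (x : ℝ) : hh (x + 2 * π) = hh x := by simp only [hh, zz_per]
theorem FF_per (x : ℝ) : FF (x + 2 * π) = FF x := by simp only [FF, zz_per]
theorem uu_per (x : ℝ) : uu (x + 2 * π) = uu x := by simp only [uu, hh, h1, zz_per]
theorem QQ_per (x : ℝ) : QQ (x + 2 * π) = QQ x := by simp only [QQ, hh, h1, h2, zz_per]

theorem cauchy (N : ℂ → ℂ) (hN : Differentiable ℂ N) (w : ℂ) (hw : ‖w‖ < 6 / 5) :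
    IntervalIntegrable (fun x => zz x * I * ((zz x - w)⁻¹ * (N (zz x) / TT (zz x)))) volume 0 (2 * π)
    ∧ ∫ x in (0 : ℝ)..2 * π, zz x * I * ((zz x - w)⁻¹ * (N (zz x) / TT (zz x)))
      = 2 * π * I * (N w / TT w) := by
  have hT : Differentiable ℂ TT := by unfold TT; fun_prop
  have hd : DifferentiableOn ℂ (fun z => N z / TT z) (Metric.closedBall 0 (6 / 5)) :=
    hN.differentiableOn.div hT.differentiableOn fun z hz => TT_ne (mem_closedBall_zero_iff.mp hz)
  constructor
  · have := zz_cont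
    refine Continuous.intervalIntegrable ((zz_cont.mul continuous_const).mul
      (((zz_cont.sub continuous_const).inv₀ fun x h => ?_).mul
        ((hN.continuous.comp zz_cont).div (hT.continuous.comp zz_cont)
          fun x => TT_ne (zz_norm x).le))) _ _
    have := zz_norm x
    rw [sub_eq_zero.mp h] at this; linarith
  · have := hd.circleIntegral_sub_inv_smul (mem_ball_zero_iff.mpr hw)
    simpa only [circleIntegral, deriv_circleMap, smul_eq_mul, zz] using this

noncomputable def a0 (x : ℝ) : ℂ := I / hh x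
noncomputable def a1 (x : ℝ) : ℂ := I * FF x / hh x
noncomputable def a2 (x : ℝ) : ℂ := I * FF x ^ 2 / hh x

theorem a0_cont : Continuous a0 := continuous_const.div hh_cont hh_ne
theorem a1_cont : Continuous a1 := (continuous_const.mul FF_cont).div hh_cont hh_ne
theorem a2_cont : Continuous a2 := (continuous_const.mul (FF_cont.pow 2)).div hh_cont hh_ne

theorem int0 : ∫ x in (0 : ℝ)..2 * π, a0 x = 2 * π * I / 99 := by
  have h := (cauchy (fun _ => 1) (by fun_prop) 1 (by norm_num)).2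
  rw [show 2 * π * I / 99 = 2 * π * I * (1 / TT 1) by norm_num [TT]; ring, ← h]
  refine intervalIntegral.integral_congr fun x _ => ?_
  have := zz_ne x; have := zz_ne1 x; have := TT_ne (zz_norm x).le
  simp only [a0, hh_eq]; field_simp

theorem int1 : ∫ x in (0 : ℝ)..2 * π, a1 x = 0 := by
  have h := cauchy (fun _ => 99) (by fun_prop) 1 (by norm_num)
  have g := cauchy (fun z => (z - 1) * (3 * z ^ 2 + 29 / 2 * z + 32)) (by fun_prop) 0 (by norm_num)
  have := intervalIntegral.integral_add h.1 g.1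
  rw [h.2, g.2] at this
  rw [show (0 : ℂ) = 2 * π * I * (99 / TT 1) + 2 * π * I * ((0 - 1) * (3 * 0 ^ 2 + 29 / 2 * 0 + 32)
    / TT 0) by norm_num [TT], ← this]
  refine intervalIntegral.integral_congr fun x _ => ?_
  have := zz_ne x; have := zz_ne1 x; have := TT_ne (zz_norm x).le
  simp only [a1, hh_eq, FF, sub_zero]; field_simp; ring

theorem int2 : ∫ x in (0 : ℝ)..2 * π, a2 x = 0 := by
  have h := cauchy (fun _ => 99 ^ 2) (by fun_prop) 1 (by norm_num)
  have g := cauchy (fun z => 198 * ((z - 1) * (3 * z ^ 2 + 29 / 2 * z + 32)) + (3168 + 567 / 4 * z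
    - 1409 / 4 * z ^ 2 - 107 / 4 * z ^ 3 + 673 / 4 * z ^ 4 + 60 * z ^ 5 + 9 * z ^ 6))
    (by fun_prop) 0 (by norm_num)
  have k1 : IntervalIntegrable (fun x => 32 * -(I * (zz x)⁻¹)) volume 0 (2 * π) :=
    (continuous_const.mul (continuous_const.mul zi_cont).neg).intervalIntegrable _ _
  have k2 := intervalIntegral.integral_eq_sub_of_hasDerivAt
    (fun x _ => (dzi x).const_mul 32) k1
  have e : zz (2 * π) = zz 0 := by simpa using zz_per 0
  have := intervalIntegral.integral_add (h.1.add g.1) k1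
  rw [intervalIntegral.integral_add h.1 g.1, h.2, g.2, k2, e] at this
  refine Eq.trans (intervalIntegral.integral_congr fun x _ => ?_) (this.trans (by
    norm_num [TT]))
  have := zz_ne x; have := zz_ne1 x; have t := TT_ne (zz_norm x).le
  simp only [a2, hh_eq, FF, sub_zero]; field_simp
  simp only [TT]; ring

theorem exists_ab (x0 : ℝ) (p0 q0 : ℂ) : ∃ p q : ℂ → ℝ → ℂ,
    (∀ m x, HasDerivAt (p m) (-(m * (a1 x * p m x + a2 x * q m x))) x) ∧
    (∀ m x, HasDerivAt (q m) (m * (a0 x * p m x + a1 x * q m x)) x) ∧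
    (∀ m, p m x0 = p0) ∧ (∀ m, q m x0 = q0) ∧ ∃ W1 W2 : ℂ → ℂ, Differentiable ℂ W1 ∧
      Differentiable ℂ W2 ∧ ∀ m, p m (x0 + 2 * π) = p0 + m ^ 2 * W1 m ∧
        q m (x0 + 2 * π) = q0 + m * (2 * π * I / 99 * p0) + m ^ 2 * W2 m := by
  let P := ContinuousLinearMap.fst ℂ ℂ ℂ
  let Q := ContinuousLinearMap.snd ℂ ℂ ℂ
  let A : ℝ → (ℂ × ℂ) →L[ℂ] (ℂ × ℂ) := fun x =>
    a0 x • ContinuousLinearMap.prod 0 P + a1 x • ContinuousLinearMap.prod (-P) Q
      + a2 x • ContinuousLinearMap.prod (-Q) 0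
  have c0 := a0_cont; have c1 := a1_cont; have c2 := a2_cont
  have hA : Continuous A := by fun_prop
  have p0' : Function.Periodic a0 (2 * π) := fun x => by simp only [a0, hh_per]
  have p1' : Function.Periodic a1 (2 * π) := fun x => by simp only [a1, hh_per, FF_per]
  have p2' : Function.Periodic a2 (2 * π) := fun x => by simp only [a2, hh_per, FF_per]
  have hp : Function.Periodic A (2 * π) := fun x => by simp only [A, p0' x, p1' x, p2' x]
  obtain ⟨C, hC⟩ := (hp.isBounded_of_continuous (by positivity) hA).exists_norm_le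
  obtain ⟨v, hv, h0, hW⟩ := exists_sol hA (fun x => hC _ ⟨x, rfl⟩) x0 (p0, q0)
  obtain ⟨W, hWd, hW⟩ := hW (x0 + 2 * π)
  have hI : ∫ t in x0..x0 + 2 * π, A t (p0, q0) = (0, 2 * π * I / 99 * p0) := by
    have e : ∀ t, A t (p0, q0) = a0 t • (0, p0) + a1 t • (-p0, q0) + a2 t • (-q0, 0) := by
      intro t; simp [A, P, Q]
    simp only [e]
    rw [intervalIntegral.integral_add, intervalIntegral.integral_add,
      intervalIntegral.integral_smul_const, intervalIntegral.integral_smul_const,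
      intervalIntegral.integral_smul_const, p0'.intervalIntegral_add_eq x0 0,
      p1'.intervalIntegral_add_eq x0 0, p2'.intervalIntegral_add_eq x0 0, zero_add, int0, int1,
      int2]
    · simp
    all_goals exact Continuous.intervalIntegrable (by fun_prop) _ _
  refine ⟨fun m x => (v m x).1, fun m x => (v m x).2, fun m x => ?_, fun m x => ?_,
    fun m => by simp [h0], fun m => by simp [h0], fun m => (W m).1, fun m => (W m).2,
    hWd.fst, hWd.snd, fun m => ?_⟩
  · refine ((ContinuousLinearMap.fst ℝ ℂ ℂ).hasFDerivAt.comp_hasDerivAt x (hv m x)).congr_deriv ?_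
    simp [A, P, Q]; ring
  · refine ((ContinuousLinearMap.snd ℝ ℂ ℂ).hasFDerivAt.comp_hasDerivAt x (hv m x)).congr_deriv ?_
    simp [A, P, Q]
  · simp [hW, hI]

end Pool.Agent.H.MP_5876d3_an
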