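import Pool.Agent.H.MP_5876d3_an.B

namespace Pool.Agent.H.MP_5876d3_an

open MeasureTheory Set Complex Real

noncomputable def ee (x0 x : ℝ) : ℂ := cexp (∫ t in x0..x, uu t)

theorem de (x0 x : ℝ) : HasDerivAt (ee x0) (ee x0 x * uu x) x :=
  (uu_cont.integral_hasStrictDerivAt x0 x).hasDerivAt.cexp

theorem exists_y (x0 : ℝ) (y0 y1 : ℂ) : ∃ y dy : ℂ → ℝ → ℂ,
    (∀ m x, HasDerivAt (y m) (dy m x) x) ∧
    (∀ m x, HasDerivAt (dy m) ((QQ x - m) * y m x) x) ∧
    (∀ m, y m x0 = y0) ∧ (∀ m, dy m x0 = y1) ∧ ∃ W1 W2 : ℂ → ℂ, Differentiable ℂ W1 ∧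
      Differentiable ℂ W2 ∧ ∀ m,
        y m (x0 + 2 * π) = ee x0 (x0 + 2 * π) * (y0 + m * (2 * π * I / 99 *
          (y0 - (y1 - uu x0 * y0) / (I * hh x0) * FF x0) * FF x0) + m ^ 2 * W1 m) ∧
        dy m (x0 + 2 * π) = ee x0 (x0 + 2 * π) * (y1 + m * (2 * π * I / 99 *
          (y0 - (y1 - uu x0 * y0) / (I * hh x0) * FF x0) * (uu x0 * FF x0 + I * hh x0))
          + m ^ 2 * W2 m) := by
  obtain ⟨p, q, hp, hq, p0, q0, W1, W2, d1, d2, hW⟩ := exists_ab x0
    (y0 - (y1 - uu x0 * y0) / (I * hh x0) * FF x0) ((y1 - uu x0 * y0) / (I * hh x0))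
  have e0 : ee x0 x0 = 1 := by simp [ee]
  have n0 := hh_ne x0
  have s : ∀ m x, HasDerivAt (fun x => p m x + q m x * FF x) (q m x * (I * hh x)) x := by
    intro m x
    refine ((hp m x).add ((hq m x).mul (dF x))).congr_deriv ?_
    simp only [a0, a1, a2]; ring
  refine ⟨fun m x => ee x0 x * (p m x + q m x * FF x),
    fun m x => ee x0 x * (uu x * (p m x + q m x * FF x) + I * hh x * q m x),
    fun m x => ((de x0 x).mul (s m x)).congr_deriv (by ring), fun m x => ?_, fun m => ?_,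
    fun m => ?_, fun m => W1 m + W2 m * FF x0,
    fun m => uu x0 * (W1 m + W2 m * FF x0) + I * hh x0 * W2 m, by fun_prop, by fun_prop,
    fun m => ⟨?_, ?_⟩⟩
  · refine ((de x0 x).mul (((du x).mul (s m x)).add
      (((dh x).const_mul I).mul (hq m x)))).congr_deriv ?_
    have := hh_ne x
    have e1 : h1 x = -2 * hh x * uu x := by rw [uu]; field_simp
    have e2 : I * hh x * (m * (a0 x * p m x + a1 x * q m x)) = -(m * (p m x + q m x * FF x)) := by
      simp only [a0, a1]; field_simp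
      linear_combination (m * (p m x + FF x * q m x)) * I_sq
    simp only [Pi.add_apply, Pi.mul_apply]
    rw [e2, e1]; ring
  · simp only [e0, p0, q0]; ring
  · simp only [e0, p0, q0]; field_simp; ring
  · simp only [(hW m).1, (hW m).2, FF_per]; ring
  · simp only [(hW m).1, (hW m).2, FF_per, uu_per, hh_per]
    congr 1
    have : I * hh x0 * ((y1 - uu x0 * y0) / (I * hh x0)) = y1 - uu x0 * y0 := by field_simp
    linear_combination this

theorem vals : FF 0 ≠ 0 ∧ uu 0 * FF 0 + I * hh 0 ≠ 0 := by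
  have z : zz 0 = 6 / 5 := by simp [zz, circleMap]
  have a : FF 0 = 75593 / 750 := by rw [FF, z]; norm_num
  have b : hh 0 = 7712 / 375 := by rw [hh, z]; norm_num
  have c : h1 0 = I * (48556 / 375) := by rw [h1, z]; norm_num
  refine ⟨by rw [a]; norm_num, ?_⟩
  rw [uu, a, b, c, show -(I * (48556 / 375)) / (2 * (7712 / 375)) * (75593 / 750) + I * (7712 / 375)
    = I * (-858148483 / 2892000) by ring]
  exact mul_ne_zero I_ne_zero (by norm_num)

theorem ord_ge {f g : ℂ → ℂ} (hg : Differentiable ℂ g) (n : ℕ) (h : ∀ m, f m = m ^ n * g m) :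
    (n : ℕ∞) ≤ analyticOrderAt f 0 := by
  have hf : f = fun m => m ^ n * g m := funext h
  have : AnalyticAt ℂ f 0 := by
    rw [hf]; exact Differentiable.analyticAt (by fun_prop) 0
  exact (natCast_le_analyticOrderAt this).mpr ⟨g, hg.analyticAt 0,
    Filter.Eventually.of_forall fun m => by simp [h]⟩

theorem ord_eq {f g : ℂ → ℂ} (hg : Differentiable ℂ g) (n : ℕ) (h : ∀ m, f m = m ^ n * g m)
    (h0 : g 0 ≠ 0) : analyticOrderAt f 0 = n := by
  have hf : f = fun m => m ^ n * g m := funext h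
  have : AnalyticAt ℂ f 0 := by
    rw [hf]; exact Differentiable.analyticAt (by fun_prop) 0
  exact this.analyticOrderAt_eq_natCast.mpr ⟨g, hg.analyticAt 0, h0,
    Filter.Eventually.of_forall fun m => by simp [h]⟩

theorem ftc {f g : ℝ → ℂ} (h : ∀ x, HasDerivAt f (g x) x) (hg : Continuous g) (a b : ℝ) :
    f b = f a + ∫ t in a..b, g t := by
  rw [intervalIntegral.integral_eq_sub_of_hasDerivAt (fun x _ => h x) (hg.intervalIntegrable _ _)]
  ring

end Pool.Agent.H.MP_5876d3_an
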